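import Pool.Agent.Helper61.QS.GoalsH

/-!
# Project QS (MP_0ebdb3_gt): packet QS-ISO, a projection is `J J⋆` for an isometry `J`
-/

set_option autoImplicit false

namespace Pool.Agent.Helper5.QS

open Pool.Agent.Helper61.QS

/-- **H-ISO** (a projection of rank `k` is `J J⋆` for an isometry `J` of `ℝᵏ`; rank and trace). -/
theorem goalISO : G_ISO := by
  intro n A hAA hA
  have hAx : ∀ x, A (A x) = A x := fun x => by
    have h : (A * A) x = A x := by rw [hAA]
    exact h
  -- the isometry onto the range
  let R : Submodule ℝ (V n) := LinearMap.range (A : V n →ₗ[ℝ] V n)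
  let b := stdOrthonormalBasis ℝ R
  let J0 : V (rk A) →ₗᵢ[ℝ] V n := R.subtypeₗᵢ.comp b.repr.symm.toLinearIsometry
  let J : V (rk A) →L[ℝ] V n := J0.toContinuousLinearMap
  have hJn : ∀ x, ‖J x‖ = ‖x‖ := fun x => J0.norm_map x
  have hJJ : (ContinuousLinearMap.adjoint J).comp J = ContinuousLinearMap.id ℝ (V (rk A)) :=
    (ContinuousLinearMap.norm_map_iff_adjoint_comp_self J).1 hJn
  have hmem : ∀ z, ∃ x, A x = J z := by
    intro z
    have h : J z ∈ R := (b.repr.symm z).2
    exact h
  have hsurj : ∀ x, ∃ z, J z = A x := by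
    intro x
    have h : A x ∈ R := LinearMap.mem_range_self _ x
    refine ⟨b.repr ⟨A x, h⟩, ?_⟩
    show ((b.repr.symm (b.repr ⟨A x, h⟩) : R) : V n) = A x
    rw [LinearIsometryEquiv.symm_apply_apply]
  have hAJ : A.comp J = J := by
    ext1 z
    obtain ⟨x, hx⟩ := hmem z
    show A (J z) = J z
    rw [← hx, hAx]
  have hJA : (ContinuousLinearMap.adjoint J).comp A = ContinuousLinearMap.adjoint J := by
    have h1 : ContinuousLinearMap.adjoint (A.comp J) = ContinuousLinearMap.adjoint J := by rw [hAJ]
    rw [ContinuousLinearMap.adjoint_comp] at h1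
    have h2 : ContinuousLinearMap.adjoint A = A := by
      rw [← ContinuousLinearMap.star_eq_adjoint]
      exact hA
    rw [h2] at h1
    exact h1
  have hmain : J.comp (ContinuousLinearMap.adjoint J) = A := by
    ext1 x
    have h1 : ContinuousLinearMap.adjoint J (A x) = ContinuousLinearMap.adjoint J x := by
      have h : ((ContinuousLinearMap.adjoint J).comp A) x = ContinuousLinearMap.adjoint J x := by
        rw [hJA]
      exact h
    obtain ⟨z, hz⟩ := hsurj x
    have h2 : ContinuousLinearMap.adjoint J (J z) = z := by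
      have h : ((ContinuousLinearMap.adjoint J).comp J) z = z := by
        rw [hJJ]
        rfl
      exact h
    show J (ContinuousLinearMap.adjoint J x) = A x
    rw [← h1, ← hz, h2]
  refine ⟨?_, J, hJJ, hmain⟩
  have h1 : tr A = LinearMap.trace ℝ (V n)
      ((J : V (rk A) →ₗ[ℝ] V n).comp ((ContinuousLinearMap.adjoint J : V n →L[ℝ] V (rk A)) :
        V n →ₗ[ℝ] V (rk A))) := by
    unfold tr
    conv_lhs => rw [← hmain]
    rfl
  have h2 : ((ContinuousLinearMap.adjoint J : V n →L[ℝ] V (rk A)) :
        V n →ₗ[ℝ] V (rk A)).comp (J : V (rk A) →ₗ[ℝ] V n) = LinearMap.id := by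
    ext1 z
    have h : ((ContinuousLinearMap.adjoint J).comp J) z = z := by
      rw [hJJ]
      rfl
    exact h
  rw [h1, LinearMap.trace_comp_comm', h2, LinearMap.trace_id, finrank_V]

end Pool.Agent.Helper5.QS
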