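import Pool.Agent.Helper61.QS.GoalsG

/-!
# Project QS (MP_0ebdb3_gt): packet QS-SR2, real analysis
-/

set_option autoImplicit false

open Set

namespace Pool.Agent.Helper5.QS

open Pool.Agent.Helper61.QS

/-- **G-SR2** (real analysis). -/
theorem goalSR2 : G_SR2 := by
  intro f A hf hA hpos h0 hπ hineq t ht
  have hf1 : ContDiff ℝ 1 (deriv f) := by
    have h := hf
    rw [show (2 : WithTop ℕ∞) = 1 + 1 by norm_num, contDiff_succ_iff_deriv] at h
    exact h.2.2
  have hdf : ∀ s, HasDerivAt (deriv f) (deriv (deriv f) s) s := fun s =>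
    ((hf1.differentiable (by norm_num)) s).hasDerivAt
  have hdA : ∀ s, HasDerivAt A (deriv A s) s := fun s =>
    ((hA.differentiable (by norm_num)) s).hasDerivAt
  let ψ : ℝ → ℝ := fun s => deriv f s / √(A s)
  have hsq : ∀ s ∈ Icc (0 : ℝ) Real.pi, 0 < √(A s) := fun s hs => Real.sqrt_pos.2 (hpos s hs)
  have hcont : ContinuousOn ψ (Icc 0 Real.pi) := by
    refine ContinuousOn.div hf1.continuous.continuousOn
      (Real.continuous_sqrt.comp hA.continuous).continuousOn ?_
    intro s hs
    exact (hsq s hs).ne'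
  have hder : ∀ s ∈ Ioo (0 : ℝ) Real.pi, HasDerivAt ψ
      ((deriv (deriv f) s * √(A s) - deriv f s * (deriv A s / (2 * √(A s)))) / (√(A s)) ^ 2) s := by
    intro s hs
    have hs' : s ∈ Icc (0 : ℝ) Real.pi := Ioo_subset_Icc_self hs
    have h1 : HasDerivAt (fun s => √(A s)) (deriv A s / (2 * √(A s))) s :=
      (hdA s).sqrt (hpos s hs').ne'
    exact (hdf s).div h1 (hsq s hs').ne'
  have hanti : AntitoneOn ψ (Icc 0 Real.pi) := by
    refine antitoneOn_of_deriv_nonpos (convex_Icc 0 Real.pi) hcont ?_ ?_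
    · rw [interior_Icc]
      intro s hs
      exact (hder s hs).differentiableAt.differentiableWithinAt
    · rw [interior_Icc]
      intro s hs
      have hs' : s ∈ Icc (0 : ℝ) Real.pi := Ioo_subset_Icc_self hs
      rw [(hder s hs).deriv]
      have hq := hsq s hs'
      have hAs : √(A s) ^ 2 = A s := Real.sq_sqrt (hpos s hs').le
      have h2 := hineq s hs
      refine div_nonpos_of_nonpos_of_nonneg ?_ (by positivity)
      have h3 : deriv f s * (deriv A s / (2 * √(A s)))
          = (deriv A s / (2 * A s) * deriv f s) * √(A s) := by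
        rw [← hAs]
        field_simp
        rw [Real.sqrt_sq hq.le]
      rw [h3]
      have h4 := mul_le_mul_of_nonneg_right h2 hq.le
      linarith
  have hpi := Real.pi_pos
  have h0m : (0 : ℝ) ∈ Icc (0 : ℝ) Real.pi := ⟨le_refl _, hpi.le⟩
  have hπm : Real.pi ∈ Icc (0 : ℝ) Real.pi := ⟨hpi.le, le_refl _⟩
  have h1 : ψ t ≤ ψ 0 := hanti h0m ht ht.1
  have h2 : ψ Real.pi ≤ ψ t := hanti ht hπm ht.2
  have h3 : ψ 0 = 0 := by show deriv f 0 / √(A 0) = 0; rw [h0, zero_div]
  have h4 : ψ Real.pi = 0 := by show deriv f Real.pi / √(A Real.pi) = 0; rw [hπ, zero_div]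
  have h5 : deriv f t / √(A t) = 0 := by
    have : ψ t = 0 := by linarith
    exact this
  rcases div_eq_zero_iff.1 h5 with h6 | h6
  · exact h6
  · exact absurd h6 (hsq t ht).ne'

end Pool.Agent.Helper5.QS
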